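import Pool.Agent.MP_708e57_al.allc.Geo

/-!
Socle degree four over every field.
-/

namespace Pool.Agent.MP_708e57_al.allc

open Module Finset

section geo

variable {K A : Type*} [Field K] [CommRing A] [Algebra K A]
variable {V : Submodule K A} {φ : A →ₗ[K] K} {L : A}

/-- span of all chains of the pencil -/
def chS (V : Submodule K A) (L c : A) : Submodule K A :=
  Submodule.span K {x | ∃ s, Ch V L c s ∧ ∃ i, x = s i}

lemma chS_le {c : A} : chS V L c ≤ V := by
  rw [chS, Submodule.span_le]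
  rintro _ ⟨s, hs, i, rfl⟩
  exact hs.1 i

lemma Ch.mem {c : A} {s : ℕ → A} (h : Ch V L c s) (i : ℕ) : s i ∈ chS V L c :=
  Submodule.subset_span ⟨s, h, i, rfl⟩

lemma chS_iso {c x y : A} (hx : x ∈ chS V L c) (hy : y ∈ chS V L c) : L * (x * y) = 0 := by
  induction hx using Submodule.span_induction with
  | zero => simp
  | add a b _ _ ha hb => rw [add_mul, mul_add, ha, hb, add_zero]
  | smul t a _ ha => rw [smul_mul_assoc, mul_smul_comm, ha, smul_zero]
  | mem a ha =>
    induction hy using Submodule.span_induction with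
    | zero => simp
    | add b b' _ _ hb hb' => rw [mul_add, mul_add, hb, hb', add_zero]
    | smul t b _ hb => rw [mul_smul_comm, mul_smul_comm, hb, smul_zero]
    | mem b hb =>
      obtain ⟨s, hs, i, rfl⟩ := ha
      obtain ⟨s', hs', j, rfl⟩ := hb
      exact hs.iso hs' i j

lemma exists_one (hP : Perf V 4 φ) {x : A} (hx : x ∈ V ^ 3) (h0 : x ≠ 0) :
    ∃ y ∈ V, φ (y * x) = 1 := by
  obtain ⟨y, hy, h⟩ : ∃ y ∈ V, φ (x * y) ≠ 0 := by
    by_contra hn
    push Not at hn
    exact h0 (hP 3 1 rfl x hx (by simpa using hn))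
  refine ⟨(φ (x * y))⁻¹ • y, V.smul_mem _ hy, ?_⟩
  rw [smul_mul_assoc, map_smul, mul_comm y, smul_eq_mul, inv_mul_cancel₀ h]

lemma mem_two {x y : A} (hx : x ∈ V) (hy : y ∈ V) : x * y ∈ V ^ 2 := by
  rw [pow_two]; exact Submodule.mul_mem_mul hx hy

lemma sq_mem {c w : A} (hc : c ∈ V) (hw : w ∈ V) : c ^ 2 * w ∈ V ^ 3 := by
  rw [pow_succ V 2]; exact Submodule.mul_mem_mul (Submodule.pow_mem_pow V hc 2) hw

variable [FiniteDimensional K A] [Infinite K]

/-- the isotropic subspace -/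
theorem iso_big (hP : Perf V 4 φ) (hL : Gen V L) {c : A} (hc : c ∈ V)
    (g2 : ∀ y ∈ V, rk (kr L V) (y ^ 2) ⊥ ≤ rk (kr L V) (c ^ 2) ⊥)
    (g3 : ∀ y ∈ V, rk (kr L V) (y ^ 3) ⊥ ≤ rk (kr L V) (c ^ 3) ⊥) :
    finrank K (kr L V) ≤ finrank K (V * kr L V : Submodule K A) ∨
      2 * (finrank K (V * kr L V : Submodule K A) + bump (rk (kr L V) (c ^ 2) ⊥)) ≤
        finrank K (V ^ 2 : Submodule K A) := by
  set W := kr L V with hW
  have hWV : W ≤ V := kr_le _ _
  have f1 : Fai V V := by simpa using faith hP (i := 1) (by omega)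
  have f2 : Fai V (V ^ 2) := faith hP (by omega)
  have f3 : Fai V (V ^ 3) := faith hP (by omega)
  have hVW : V * W ≤ V ^ 2 := by rw [pow_two]; exact mul_le_mul_right hWV V
  have hVVW : V * (V * W) ≤ V ^ 3 := by rw [pow_succ' V 2]; exact mul_le_mul_right hVW V
  set S := chS V L c with hS
  set I : Submodule K A := V * W ⊔ im L S with hI
  have hLV : im L V ≤ V ^ 2 := by rw [pow_two]; exact im_le hL.1
  have hILV : I ≤ im L V := sup_le (hL.mul_le.trans (kr_le _ _)) (Submodule.map_mono chS_le)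
  have hI2 : I ≤ V ^ 2 := hILV.trans hLV
  have hkill : ∀ x ∈ V * W, L * x = 0 := fun x hx => (hL.mul_le hx).2
  have o1 : ∀ x ∈ V * W, ∀ x' ∈ I, x * x' = 0 := by
    intro x hx x' hx'
    obtain ⟨v, -, rfl⟩ := mem_im.1 (hILV hx')
    linear_combination v * hkill x hx
  have oII : ∀ x ∈ I, ∀ x' ∈ I, φ (x * x') = 0 := by
    intro x hx x' hx'
    obtain ⟨a, ha, b, hb, rfl⟩ := Submodule.mem_sup.1 hx
    obtain ⟨s, hs, rfl⟩ := mem_im.1 hb
    have h1 := o1 a ha x' hx'
    obtain ⟨a', ha', b', hb', rfl⟩ := Submodule.mem_sup.1 hx'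
    obtain ⟨s', hs', rfl⟩ := mem_im.1 hb'
    have : (a + L * s) * (a' + L * s') = 0 := by
      linear_combination h1 + s * hkill a' ha' + L * chS_iso hs hs'
    rw [this, map_zero]
  have d1 := im_add_kr L I
  have d2 : finrank K (V * W : Submodule K A) ≤ finrank K (kr L I) :=
    Submodule.finrank_mono fun x hx => ⟨Submodule.mem_sup_left hx, hkill x hx⟩
  have hin : ∀ s, Ch V L c s → ∀ i, L ^ 2 * s i ∈ im L I := fun s hs i =>
    ⟨L * s i, Submodule.mem_sup_right ⟨s i, hs.mem i, rfl⟩, by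
      simp only [LinearMap.mulLeft_apply]; ring⟩
  have d3 : im (c ^ 2) W ≤ im L I := by
    rintro _ ⟨w, hw, rfl⟩
    obtain ⟨s, hs, h0⟩ := hL.chain hc hw
    have := hin s hs 2
    rwa [hs.pow 2, h0] at this
  have d4 := Submodule.finrank_mono d3
  have d5 := orth hP (i := 2) (j := 2) rfl hI2 hI2 oII
  rw [← rk_im] at d4
  rcases Nat.eq_zero_or_pos (rk W (c ^ 2) ⊥) with h0 | hpos
  · right
    rw [h0, bump, if_pos rfl]
    omega
  rw [bump, if_neg (by omega)]
  by_cases hbig : rk W (c ^ 2) ⊥ < finrank K (im L I)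
  · right
    omega
  have heq : im (c ^ 2) W = im L I :=
    Submodule.eq_of_le_of_finrank_le d3 (by rw [← rk_im (c ^ 2)]; omega)
  have hc3 : ∀ w ∈ W, c ^ 3 * w = 0 := by
    intro w hw
    obtain ⟨s, hs, h0⟩ := hL.chain hc hw
    have h1 := hin s hs 3
    rw [← heq] at h1
    obtain ⟨w', hw', h2⟩ := mem_im.1 h1
    have h3 := hs.pow 3
    have h4 : L * w' = 0 := hw'.2
    rw [h0] at h3
    linear_combination -h3 - L * h2 + c ^ 2 * h4
  obtain ⟨w1, hw1, hw10⟩ : ∃ w ∈ W, c ^ 2 * w ≠ 0 := by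
    by_contra hn
    push Not at hn
    have : rk W (c ^ 2) ⊥ = 0 := rk_eq_zero_iff.2 hn
    omega
  obtain ⟨y1, hy1, e1⟩ := exists_one hP (sq_mem hc (hWV hw1)) hw10
  have h2 : (2 : K) ≠ 0 := two_ne hc hw1 (all_zero g3 hc3) hy1 fun h => by
    rw [h, map_zero] at e1
    exact zero_ne_one e1
  by_cases hone : rk W (c ^ 2) ⊥ = 1
  · left
    have k1 := sq_drop hc (f3.mono hVVW) g2 g3 hpos
    have k2 : ∀ y ∈ V, ∀ w ∈ kr c W, y ^ 2 * w = 0 := fun y hy =>
      rk_eq_zero_iff.1 (by have := k1 y hy; omega : rk (kr c W) (y ^ 2) ⊥ = 0)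
    have k3 : kr c W = ⊥ := by
      rw [Submodule.eq_bot_iff]
      intro w hw
      have hwV := hWV hw.1
      refine f1 w hwV fun y hy => f2 _ (mem_two hy hwV) fun y' hy' => ?_
      have : (2 : K) • (y' * (y * w)) = 0 := by
        rw [two_smul]
        linear_combination k2 _ (V.add_mem hy hy') w hw - k2 y hy w hw - k2 y' hy' w hw
      exact (smul_eq_zero.1 this).resolve_left h2
    have k4 := im_add_kr c W
    have k5 := Submodule.finrank_mono (im_le (W := W) hc)
    rw [k3, finrank_bot] at k4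
    omega
  right
  obtain ⟨w2, hw2, hw20, e12⟩ : ∃ w ∈ W, c ^ 2 * w ≠ 0 ∧ φ (y1 * (c ^ 2 * w)) = 0 := by
    have k1 := fr_map (im (c ^ 2) W) (φ ∘ₗ LinearMap.mulLeft K y1)
    have k2 := Submodule.finrank_le ((im (c ^ 2) W).map (φ ∘ₗ LinearMap.mulLeft K y1))
    rw [finrank_self] at k2
    rw [← rk_im] at k1
    obtain ⟨x, hx, hx0⟩ := Submodule.exists_mem_ne_zero_of_ne_bot
      (p := im (c ^ 2) W ⊓ LinearMap.ker (φ ∘ₗ LinearMap.mulLeft K y1)) fun h => by
        rw [h, finrank_bot] at k1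
        omega
    obtain ⟨w, hw, rfl⟩ := mem_im.1 hx.1
    exact ⟨w, hw, hx0, hx.2⟩
  obtain ⟨y2, hy2, e2⟩ := exists_one hP (sq_mem hc (hWV hw2)) hw20
  set T : Submodule K A := S ⊓ (im c W).comap (LinearMap.mulLeft K L) with hT
  set J : Submodule K A := I ⊔ V * T with hJ
  have hTV : T ≤ V := inf_le_left.trans chS_le
  have hJ2 : J ≤ V ^ 2 := sup_le hI2 (by rw [pow_two]; exact mul_le_mul_right hTV V)
  have oIJ : ∀ x ∈ I, ∀ x' ∈ J, φ (x * x') = 0 := by
    intro x hx x' hx'
    obtain ⟨a', ha', b', hb', rfl⟩ := Submodule.mem_sup.1 hx'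
    rw [mul_add, map_add, oII x hx a' ha', zero_add]
    refine Submodule.mul_induction_on hb' (fun y hy t ht => ?_) fun a b h1 h2 => ?_
    · obtain ⟨a, ha, b, hb, rfl⟩ := Submodule.mem_sup.1 hx
      obtain ⟨s, hs, rfl⟩ := mem_im.1 hb
      obtain ⟨w', hw', h3⟩ := mem_im.1 ht.2
      have h4 : a * (y * t) = 0 := by
        refine Submodule.mul_induction_on ha (fun y' hy' w hw => ?_) fun a b h1 h2 => ?_
        · have := hL.beta h2 hc hy hy' hw hw' (zy := t) h3.symm
          linear_combination this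
        · rw [add_mul, h1, h2, add_zero]
      have : (a + L * s) * (y * t) = 0 := by
        linear_combination h4 + y * chS_iso hs ht.1
      rw [this, map_zero]
    · rw [mul_add, map_add, h1, h2, add_zero]
  have hTex : ∀ w ∈ W, ∃ t ∈ T, L * t = c * w := by
    intro w hw
    obtain ⟨s, hs, h0⟩ := hL.chain hc hw
    have h1 := hs.2.2 0
    rw [h0] at h1
    exact ⟨s 1, ⟨hs.mem 1, w, hw, h1.symm⟩, h1⟩
  obtain ⟨t1, ht1, r1⟩ := hTex w1 hw1
  obtain ⟨t2, ht2, r2⟩ := hTex w2 hw2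
  set lam : A →ₗ[K] K := φ ∘ₗ LinearMap.mulLeft K (c * L) with hlam
  have lv : ∀ y t w, L * t = c * w → lam (y * t) = φ (y * (c ^ 2 * w)) := by
    intro y t w h
    change φ (c * L * (y * t)) = _
    congr 1
    linear_combination c * y * h
  have lI : ∀ x ∈ I, lam x = 0 := by
    intro x hx
    have h1 : L * x ∈ im (c ^ 2) W := by
      rw [heq]
      exact ⟨x, hx, rfl⟩
    obtain ⟨w, hw, h3⟩ := mem_im.1 h1
    change φ (c * L * x) = 0
    have : c * L * x = 0 := by linear_combination hc3 w hw - c * h3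
    rw [this, map_zero]
  have mJ : ∀ y ∈ V, ∀ t ∈ T, y * t ∈ J := fun y hy t ht =>
    Submodule.mem_sup_right (Submodule.mul_mem_mul hy ht)
  have l11 : lam (y1 * t1) = 1 := by rw [lv _ _ _ r1, e1]
  have hle : I ≤ J ⊓ LinearMap.ker lam := fun x hx => ⟨Submodule.mem_sup_left hx, lI x hx⟩
  rcases hle.eq_or_lt with h | h
  · have q12 : y1 * t2 ∈ I := by
      rw [h]
      exact ⟨mJ _ hy1 _ ht2, by rw [SetLike.mem_coe, LinearMap.mem_ker, lv _ _ _ r2, e12]⟩
    have qd : y1 * t1 - y2 * t2 ∈ I := by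
      rw [h]
      refine ⟨Submodule.sub_mem _ (mJ _ hy1 _ ht1) (mJ _ hy2 _ ht2), ?_⟩
      rw [SetLike.mem_coe, LinearMap.mem_ker, map_sub, l11, lv _ _ _ r2, e2, sub_self]
    have qq : φ (y1 * t1 * (y1 * t1)) = 0 := by
      have k1 := oIJ _ qd _ (mJ _ hy1 _ ht1)
      have k2 := oIJ _ q12 _ (mJ _ hy2 _ ht1)
      have : y1 * t1 * (y1 * t1) =
          (y1 * t1 - y2 * t2) * (y1 * t1) + y1 * t2 * (y2 * t1) := by ring
      rw [this, map_add, k1, k2, add_zero]
    set I' : Submodule K A := I ⊔ Submodule.span K {y1 * t1} with hI'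
    have hI'J : I' ≤ J := sup_le le_sup_left (by
      rw [Submodule.span_le, Set.singleton_subset_iff]
      exact mJ _ hy1 _ ht1)
    have k1 : finrank K I < finrank K I' :=
      Submodule.finrank_lt_finrank_of_lt (lt_of_le_of_ne le_sup_left fun e => by
        have : y1 * t1 ∈ I := by
          rw [e]
          exact Submodule.mem_sup_right (Submodule.mem_span_singleton_self _)
        rw [lI _ this] at l11
        exact zero_ne_one l11)
    have k2 := orth hP (i := 2) (j := 2) rfl (hI'J.trans hJ2) (hI'J.trans hJ2) (by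
      intro x hx x' hx'
      obtain ⟨a, ha, b, hb, rfl⟩ := Submodule.mem_sup.1 hx
      obtain ⟨u, rfl⟩ := Submodule.mem_span_singleton.1 hb
      rw [add_mul, map_add, oIJ a ha x' (hI'J hx'), zero_add, smul_mul_assoc, map_smul]
      obtain ⟨a', ha', b', hb', rfl⟩ := Submodule.mem_sup.1 hx'
      obtain ⟨u', rfl⟩ := Submodule.mem_span_singleton.1 hb'
      rw [mul_add, map_add, mul_comm _ a', oIJ a' ha' _ (mJ _ hy1 _ ht1), mul_smul_comm, map_smul,
        qq]
      simp)
    omega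
  · have k1 := Submodule.finrank_lt_finrank_of_lt h
    have k2 : finrank K (J ⊓ LinearMap.ker lam : Submodule K A) < finrank K J :=
      Submodule.finrank_lt_finrank_of_lt (lt_of_le_of_ne inf_le_left fun e => by
        have h1 := mJ _ hy1 _ ht1
        rw [← e] at h1
        have h3 : lam (y1 * t1) = 0 := h1.2
        rw [h3] at l11
        exact zero_ne_one l11)
    have k3 := orth hP (i := 2) (j := 2) rfl hI2 hJ2 oIJ
    omega

/-- The sharp inequality in socle degree four. -/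
theorem four_bound (hP : Perf V 4 φ) (n j : ℕ) (hj : j ≤ n)
    (h : finrank K (V ^ 2 : Submodule K A) / 2 ≤ (n + 1).choose 2 + j) :
    finrank K V ≤ finrank K (V ^ 2 : Submodule K A) + n.choose 3 + (j - 1).choose 2 := by
  obtain ⟨L, hLV, g, -, -⟩ := exists_gen3 V V
  have hL : Gen V L := ⟨hLV, g⟩
  obtain ⟨c, hc, -, g2, g3⟩ := exists_gen3 V (kr L V)
  have hWV : kr L V ≤ V := kr_le _ _
  have hVW : V * kr L V ≤ V ^ 2 := by rw [pow_two]; exact mul_le_mul_right hWV V
  have hVVW : V * (V * kr L V) ≤ V ^ 3 := by rw [pow_succ' V 2]; exact mul_le_mul_right hVW V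
  have f1 : Fai V V := by simpa using faith hP (i := 1) (by omega)
  have a1 := im_add_kr L V
  have a2 := im_add_kr L (V ^ 2)
  have a3 := hP.rk_dual (a := L) (e := 1) (i := 1) (j := 2) (by simpa using hLV) rfl
  rw [pow_one, rk_im, rk_im] at a3
  have a4 : finrank K (V * kr L V : Submodule K A) ≤ finrank K (kr L (V ^ 2)) :=
    Submodule.finrank_mono fun x hx => ⟨hVW hx, (hL.mul_le hx).2⟩
  rcases iso_big hP hL hc g2 g3 with h1 | h1
  · omega
  · have := cubic V _ (kr L V) le_rfl (f1.mono hWV) ((faith hP (i := 2) (by omega)).mono hVW)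
      ((faith hP (i := 3) (by omega)).mono hVVW) _ g2 n j hj (by omega)
    omega

end geo

universe u

/-- Classification of the Gorenstein sequences of socle degree four over every field. -/
theorem socleFourAll (K : Type u) [Field K] (h : ℕ → ℕ) :
    IsGorSeq K 4 h ↔ h 0 = 1 ∧ h 3 = h 1 ∧ h 4 = 1 ∧ (∀ i, 4 < i → h i = 0) ∧
      1 ≤ h 1 ∧ h 2 ≤ (h 1 + 1).choose 2 ∧
      ∃ n j : ℕ, j ≤ n ∧ h 2 / 2 = (n + 1).choose 2 + j ∧
        h 1 ≤ h 2 + n.choose 3 + (j - 1).choose 2 := by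
  constructor
  · intro hG
    obtain ⟨b0, bs, bz⟩ := hG.basic
    refine ⟨b0, bs 3 1 rfl, (bs 4 0 rfl).trans b0, bz, hG.pos (by omega),
      hG.two_le (by omega), ?_⟩
    set n := topB 1 (h 2 / 2) with hn
    have n1 := topB_le 1 (h 2 / 2)
    have n2 := rem_lt 1 (h 2 / 2)
    rw [← hn, Nat.multichoose_eq] at n1 n2
    rw [Nat.multichoose_one_right] at n2
    have e : n + (1 + 1) - 1 = n + 1 := by omega
    rw [e] at n1 n2
    simp only [Nat.reduceAdd] at n1 n2
    refine ⟨n, h 2 / 2 - (n + 1).choose 2, by omega, by omega, ?_⟩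
    obtain ⟨A, _, _, _, V, φ, hP, hh⟩ := hG.data_closure
    have h1 := hh 1 (by omega)
    have h2 := hh 2 (by omega)
    rw [pow_one] at h1
    have := four_bound hP n (h 2 / 2 - (n + 1).choose 2) (by omega) (by omega)
    rwa [h1, h2] at this
  · rintro ⟨h0, h3, h4, hz, h1, h2, n, j, hj, hn, hc⟩
    by_cases hr : h 1 ≤ h 2
    · refine isGorSeq_points K (by omega) h1 hr h2 h h0 h4 hz rfl h3 fun i hi hi' => ?_
      obtain rfl : i = 2 := by omega
      rfl
    obtain ⟨n, rfl⟩ : ∃ k, n = k + 1 := by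
      refine ⟨n - 1, ?_⟩
      by_contra hne
      obtain rfl : n = 0 := by omega
      obtain rfl : j = 0 := by omega
      simp at hc
      omega
    have c1 := choose_two_succ (n + 1)
    have m2 := mac_mc_add 1 n (j - 1) (by rw [Nat.multichoose_one_right]; omega)
    have e2 : n.multichoose (1 + 1) = (n + 1).choose 2 := mc_two (n + 1)
    have e3 : n.multichoose (1 + 2) = (n + 1).choose 2 + (n + 1).choose 3 := by
      rw [Nat.multichoose_eq, ← Nat.choose_succ_succ']
      rfl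
    rw [e2, e3, mac_one, choose_two_succ (j - 1)] at m2
    have key := isGorSeq_extSeq K (d := 4) (by omega)
      (isOSeq_seq4 (x := if j - 1 = 0 then n else n + 1) (y := (n + 1).choose 2 + (j - 1))
        (z := (n + 1).choose 2 + (j - 1) + (h 1 - h 2)) (w := 0)
        (by split_ifs <;> omega) (by simp only [Nat.reduceAdd] at m2; omega) (Nat.zero_le _))
      (h 2 - 2 * (1 + (if j - 1 = 0 then n else n + 1) + ((n + 1).choose 2 + (j - 1))))
    convert key using 1
    funext i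
    match i with
    | 0 => simp [extSeq, h0]
    | 1 => simp [extSeq, seq4, sum_range_succ]; split_ifs <;> omega
    | 2 => simp [extSeq, seq4, sum_range_succ]; split_ifs <;> omega
    | 3 => simp [extSeq, seq4, sum_range_succ]; split_ifs <;> omega
    | 4 => simp [extSeq, h4]
    | i + 5 => rw [hz _ (by omega), extSeq, if_neg (by omega), if_neg (by omega)]

end Pool.Agent.MP_708e57_al.allc
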