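import Pool.Agent.MP_708e57_al.allc.Lev

/-!
Kernel chains of a linear form of maximal rank, in every characteristic.
-/

namespace Pool.Agent.MP_708e57_al.allc

open Module

variable {K A : Type*} [Field K] [CommRing A] [Algebra K A]
variable {V : Submodule K A} {φ : A →ₗ[K] K} {L : A}

lemma faith {d i : ℕ} (hP : Perf V d φ) (hi : i < d) : Fai V (V ^ i) := by
  intro x hx h
  obtain ⟨j, hj⟩ : ∃ j, i + (j + 1) = d := ⟨d - i - 1, by omega⟩
  refine hP i (j + 1) hj x hx fun w hw => ?_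
  rw [pow_succ'] at hw
  refine Submodule.mul_induction_on hw (fun y hy b _ => ?_) fun a b h1 h2 => ?_
  · rw [← mul_assoc, mul_comm x, h y hy, zero_mul, map_zero]
  · rw [mul_add, map_add, h1, h2, add_zero]

/-- a chain for the pencil spanned by `L` and `c` -/
def Ch (V : Submodule K A) (L c : A) (s : ℕ → A) : Prop :=
  (∀ i, s i ∈ V) ∧ L * s 0 = 0 ∧ ∀ i, L * s (i + 1) = c * s i

lemma Ch.iso {c : A} {s s' : ℕ → A} (h : Ch V L c s) (h' : Ch V L c s') (i : ℕ) :
    ∀ j, L * (s i * s' j) = 0 := by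
  induction i with
  | zero => intro j; rw [← mul_assoc, h.2.1, zero_mul]
  | succ i ih =>
    intro j
    have h1 := h.2.2 i
    have h2 := h'.2.2 j
    have h3 := ih (j + 1)
    linear_combination s' j * h1 - s i * h2 + h3

lemma Ch.pow {c : A} {s : ℕ → A} (h : Ch V L c s) (i : ℕ) : L ^ i * s i = c ^ i * s 0 := by
  induction i with
  | zero => simp
  | succ i ih =>
    have h1 := h.2.2 i
    linear_combination L ^ i * h1 + c * ih

variable [FiniteDimensional K A]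

lemma orth {d i j : ℕ} (hP : Perf V d φ) (hd : i + j = d) {I J : Submodule K A} (hI : I ≤ V ^ i)
    (hJ : J ≤ V ^ j) (h : ∀ x ∈ I, ∀ y ∈ J, φ (x * y) = 0) :
    finrank K I + finrank K J ≤ finrank K (V ^ j : Submodule K A) := by
  have h1 := hP.brk_eq (a := 1) (e := 0) (i := i) (j := j) (by simp [Submodule.one_eq_span])
    (by omega) hI
  rw [rk_one_bot, brk_comm] at h1
  have h2 := brk_add φ 1 (V ^ j) I
  have h3 : J ≤ V ^ j ⊓ LinearMap.ker (pairL φ 1 I) := fun y hy =>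
    ⟨hJ hy, mem_ker_pairL.2 fun x hx => by rw [one_mul, mul_comm]; exact h x hx y hy⟩
  have h4 := Submodule.finrank_mono h3
  omega

/-- `L` has maximal rank on `V` -/
def Gen (V : Submodule K A) (L : A) : Prop :=
  L ∈ V ∧ ∀ y ∈ V, rk V (y ^ 1) ⊥ ≤ rk V (L ^ 1) ⊥

variable [Infinite K]

lemma Gen.mul_le (hL : Gen V L) : V * kr L V ≤ kr L (im L V) := mul_kr_le_im hL.1 hL.2

lemma Gen.zex (hL : Gen V L) {y w : A} (hy : y ∈ V) (hw : w ∈ kr L V) :
    ∃ z ∈ V, L * z = y * w :=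
  (hL.mul_le (Submodule.mul_mem_mul hy hw)).1

lemma Gen.chain (hL : Gen V L) {c w : A} (hc : c ∈ V) (hw : w ∈ kr L V) :
    ∃ s, Ch V L c s ∧ s 0 = w := by
  obtain ⟨s, hs0, hs, hrel⟩ := Pool.Agent.MP_708e57_al.chain V ⊥
    ((Polynomial.C L + Polynomial.X * Polynomial.C (-c)) ^ 1) (by
      intro t
      rw [eval_lin, eval_lin_zero]
      exact hL.2 _ (V.add_mem hL.1 (V.smul_mem t (V.neg_mem hc)))) w hw.1 (by
      rw [coeff_zero_lin, pow_one]
      exact hw.2)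
  have h1 := coe_mul_mk_eq_zero L (-c) 1 s hrel
  refine ⟨s, ⟨hs, by rw [hs0]; exact hw.2, fun i => ?_⟩, hs0⟩
  have h2 := congrArg (PowerSeries.coeff (i + 1)) h1
  rw [pow_one, add_mul, mul_assoc, map_add, PowerSeries.coeff_succ_X_mul,
    PowerSeries.coeff_C_mul, PowerSeries.coeff_C_mul, PowerSeries.coeff_mk, PowerSeries.coeff_mk,
    map_zero] at h2
  linear_combination h2

lemma Gen.sec (hL : Gen V L) {y w z : A} (hy : y ∈ V) (hw : w ∈ kr L V) (hz : z ∈ V)
    (h : L * z = y * w) : y * z ∈ im L V := by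
  obtain ⟨s, hs, h0⟩ := hL.chain hy hw
  have h1 := hs.2.2 0
  have h2 := hs.2.2 1
  obtain ⟨v, hv, h3⟩ := hL.zex hy (w := z - s 1) ⟨V.sub_mem hz (hs.1 1), by
    change L * (z - s 1) = 0
    rw [h0] at h1
    linear_combination h - h1⟩
  refine ⟨s 2 + v, V.add_mem (hs.1 2) hv, ?_⟩
  change L * (s 2 + v) = _
  linear_combination h2 + h3

lemma Gen.polar (hL : Gen V L) {y a w zy za : A} (hy : y ∈ V) (ha : a ∈ V) (hw : w ∈ kr L V)
    (hzy : zy ∈ V) (hza : za ∈ V) (h1 : L * zy = y * w) (h2 : L * za = a * w) :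
    ∃ v ∈ V, L * v = y * za + a * zy := by
  have e1 := hL.sec hy hw hzy h1
  have e2 := hL.sec ha hw hza h2
  have e3 := hL.sec (V.add_mem hy ha) hw (V.add_mem hzy hza) (by linear_combination h1 + h2)
  have e4 := Submodule.sub_mem _ (Submodule.sub_mem _ e3 e1) e2
  obtain ⟨v, hv, h⟩ := mem_im.1 e4
  exact ⟨v, hv, by linear_combination h⟩

lemma Gen.anti (hL : Gen V L) {y a w w' zy za : A} (hy : y ∈ V) (ha : a ∈ V) (hw : w ∈ kr L V)
    (hw' : w' ∈ kr L V) (h1 : L * zy = y * w') (h2 : L * za = a * w') :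
    a * w * zy + y * w * za = 0 := by
  obtain ⟨xy, hxy, e1⟩ := hL.zex hy hw
  obtain ⟨xa, hxa, e2⟩ := hL.zex ha hw
  obtain ⟨v, -, e3⟩ := hL.polar hy ha hw hxy hxa e1 e2
  have e4 : L * w' = 0 := hw'.2
  linear_combination (-zy) * e2 + xa * h1 - za * e1 + xy * h2 - w' * e3 + v * e4

lemma Gen.beta (hL : Gen V L) (h2 : (2 : K) ≠ 0) {y a b w w' zy : A} (hy : y ∈ V) (ha : a ∈ V)
    (hb : b ∈ V) (hw : w ∈ kr L V) (hw' : w' ∈ kr L V) (h1 : L * zy = y * w') :
    a * b * w * zy = 0 := by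
  obtain ⟨za, -, e1⟩ := hL.zex ha hw'
  obtain ⟨zb, -, e2⟩ := hL.zex hb hw'
  have a1 := hL.anti hy ha hw hw' h1 e1
  have a2 := hL.anti ha hb hw hw' e1 e2
  have a3 := hL.anti hb hy hw hw' e2 h1
  have : (2 : K) • (a * b * w * zy) = 0 := by
    rw [two_smul]
    linear_combination b * a1 - y * a2 + a * a3
  exact (smul_eq_zero.1 this).resolve_left h2

omit [FiniteDimensional K A] in
lemma two_ne {W : Submodule K A} {c w : A} (hc : c ∈ V) (hw : w ∈ W)
    (h3 : ∀ y ∈ V, ∀ w ∈ W, y ^ 3 * w = 0) {y : A} (hy : y ∈ V) (h : y * (c ^ 2 * w) ≠ 0) :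
    (2 : K) ≠ 0 := by
  intro h2
  have h2' : (2 : A) = 0 := by
    have := congrArg (algebraMap K A) h2
    rwa [map_ofNat, map_zero] at this
  have key : ∀ z ∈ V, c ^ 2 * z * w + c * z ^ 2 * w = 0 := by
    intro z hz
    have e1 := h3 _ (V.add_mem hc hz) w hw
    have e2 := h3 c hc w hw
    have e3 := h3 z hz w hw
    linear_combination e1 - e2 - e3 - (c ^ 2 * z * w + c * z ^ 2 * w) * h2'
  obtain ⟨t, ht⟩ := (Set.toFinite ({0, 1} : Set K)).exists_notMem
  simp only [Set.mem_insert_iff, Set.mem_singleton_iff, not_or] at ht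
  have e1 := key y hy
  have e2 := key _ (V.smul_mem t hy)
  have e3 : (t * (t - 1)) • (y * (c ^ 2 * w)) = 0 := by
    rw [Algebra.smul_def] at e2 ⊢
    rw [map_mul, map_sub, map_one]
    linear_combination (algebraMap K A t) ^ 2 * e1 - e2
  exact h ((smul_eq_zero.1 e3).resolve_left (mul_ne_zero ht.1 (sub_ne_zero.2 ht.2)))

end Pool.Agent.MP_708e57_al.allc
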