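import Pool.Agent.MP_708e57_al.Final

/-!
Characteristic free bounds for the module generated by a subspace in top degree three.
-/

namespace Pool.Agent.MP_708e57_al.allc

open Module Polynomial

variable {K A : Type*} [Field K] [CommRing A] [Algebra K A]

/-- image under multiplication -/
noncomputable def im (c : A) (W : Submodule K A) : Submodule K A :=
  W.map (LinearMap.mulLeft K c)

/-- kernel of multiplication -/
noncomputable def kr (c : A) (W : Submodule K A) : Submodule K A :=
  W ⊓ LinearMap.ker (LinearMap.mulLeft K c)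

lemma mem_im {c x : A} {W : Submodule K A} : x ∈ im c W ↔ ∃ w ∈ W, c * w = x := Iff.rfl

lemma mem_kr {c x : A} {W : Submodule K A} : x ∈ kr c W ↔ x ∈ W ∧ c * x = 0 := Iff.rfl

lemma kr_le (c : A) (W : Submodule K A) : kr c W ≤ W := inf_le_left

lemma im_le {V W : Submodule K A} {c : A} (hc : c ∈ V) : im c W ≤ V * W := by
  rintro _ ⟨w, hw, rfl⟩
  exact Submodule.mul_mem_mul hc hw

lemma im_im (c c' : A) (W : Submodule K A) : im c (im c' W) = im (c * c') W := by
  ext x
  simp only [mem_im]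
  constructor
  · rintro ⟨_, ⟨w, hw, rfl⟩, rfl⟩
    exact ⟨w, hw, by ring⟩
  · rintro ⟨w, hw, rfl⟩
    exact ⟨_, ⟨w, hw, rfl⟩, by ring⟩

/-- no nonzero element of `X` is killed by `V` -/
def Fai (V X : Submodule K A) : Prop := ∀ x ∈ X, (∀ y ∈ V, y * x = 0) → x = 0

lemma Fai.mono {V X X' : Submodule K A} (h : Fai V X) (hle : X' ≤ X) : Fai V X' :=
  fun x hx => h x (hle hx)

lemma Fai.eq_bot {V X : Submodule K A} (h : Fai V X) (h0 : V * X = ⊥) : X = ⊥ := by
  rw [Submodule.eq_bot_iff] at h0 ⊢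
  exact fun x hx => h x hx fun y hy => h0 _ (Submodule.mul_mem_mul hy hx)

lemma pow_kill {c w : A} (h : c * w = 0) (a : A) (n : ℕ) : (c + a) ^ n * w = a ^ n * w := by
  induction n with
  | zero => simp
  | succ n ih =>
    have e : (c + a) ^ (n + 1) * w = (c + a) * ((c + a) ^ n * w) := by ring
    rw [e, ih]
    linear_combination a ^ n * h

lemma mul_kr_le (V W : Submodule K A) (c : A) : V * kr c W ≤ kr c (V * W) := by
  rw [Submodule.mul_le]
  intro y hy w hw
  exact ⟨Submodule.mul_mem_mul hy hw.1, by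
    have : c * w = 0 := hw.2
    change c * (y * w) = 0
    linear_combination y * this⟩

variable [FiniteDimensional K A]

lemma im_add_kr (c : A) (W : Submodule K A) :
    finrank K (im c W) + finrank K (kr c W) = finrank K W := fr_map W _

lemma rk_im (c : A) (W : Submodule K A) : rk W c ⊥ = finrank K (im c W) := rk_bot W c

lemma kr_lt {c x : A} {W : Submodule K A} (hx : x ∈ W) (h : c * x ≠ 0) :
    finrank K (kr c W) < finrank K W :=
  Submodule.finrank_lt_finrank_of_lt (lt_of_le_of_ne (kr_le c W) fun e => h (by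
    rw [← e] at hx
    exact hx.2))

lemma im_diff (c : A) {W W' : Submodule K A} (h : W' ≤ W) :
    finrank K (im c W) + finrank K W' ≤ finrank K (im c W') + finrank K W := by
  have h1 := im_add_kr c W
  have h2 := im_add_kr c W'
  have h3 : finrank K (kr c W') ≤ finrank K (kr c W) :=
    Submodule.finrank_mono (inf_le_inf_right _ h)
  omega

/-- spaces of quadrics, and of alternating quadrics -/
lemma quad (V : Submodule K A) (k : ℕ) : ∀ Q : Submodule K A, Fai V Q → Fai V (V * Q) →
    finrank K (V * Q : Submodule K A) ≤ k → finrank K Q ≤ (k + 1).choose 2 ∧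
      ((∀ y ∈ V, ∀ q ∈ Q, y * (y * q) = 0) → finrank K Q ≤ k.choose 2) := by
  induction k with
  | zero =>
    intro Q h1 _ h3
    have : Q = ⊥ := h1.eq_bot (Submodule.finrank_eq_zero.1 (by omega))
    simp [this]
  | succ k ih =>
    intro Q h1 h2 h3
    by_cases h0 : V * Q = ⊥
    · have : finrank K Q = 0 := Submodule.finrank_eq_zero.2 (h1.eq_bot h0)
      exact ⟨by omega, fun _ => by omega⟩
    obtain ⟨x, hx, hx0⟩ := Submodule.exists_mem_ne_zero_of_ne_bot h0
    obtain ⟨c, hc, hcx⟩ : ∃ c ∈ V, c * x ≠ 0 := by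
      by_contra hn
      push Not at hn
      exact hx0 (h2 x hx hn)
    have l1 := kr_lt hx hcx
    have l2 := Submodule.finrank_mono (mul_kr_le V Q c)
    obtain ⟨i1, i2⟩ := ih (kr c Q) (h1.mono (kr_le _ _))
      (h2.mono ((mul_kr_le V Q c).trans (kr_le _ _))) (by omega)
    have l3 := im_add_kr c Q
    have l4 := Submodule.finrank_mono (im_le (W := Q) hc)
    have c1 := choose_two_succ (k + 1)
    have c2 := choose_two_succ k
    refine ⟨by omega, fun ha => ?_⟩
    have l5 : im c Q ≤ kr c (V * Q) := by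
      rintro _ ⟨q, hq, rfl⟩
      exact ⟨Submodule.mul_mem_mul hc hq, ha c hc q hq⟩
    have l6 := Submodule.finrank_mono l5
    have := i2 fun y hy q hq => ha y hy q hq.1
    omega

lemma num (x E n j δ : ℕ) (hj : j ≤ n) (hx : x ≤ (E + 1).choose 2)
    (hX : x + E + 1 ≤ (n + 1).choose 2 + j)
    (ih : ∀ n' j', j' ≤ n' → x ≤ (n' + 1).choose 2 + j' → δ ≤ n'.choose 3 + (j' - 1).choose 2) :
    x + δ ≤ E + n.choose 3 + (j - 1).choose 2 := by
  rcases n with _ | m
  · obtain rfl : j = 0 := by omega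
    simp at hX
  have c1 := choose_two_succ (m + 1)
  have c2 := choose_two_succ m
  have c3 : (m + 1).choose 3 = m.choose 2 + m.choose 3 := Nat.choose_succ_succ' m 2
  rcases Nat.lt_or_ge m E with hE | hE
  · rcases j with _ | _ | j
    · have := ih m 0 (by omega) (by omega)
      simp only [zero_tsub, Nat.choose_zero_succ, add_zero] at this ⊢
      omega
    · have := ih m 0 (by omega) (by omega)
      simp only [zero_tsub, Nat.choose_zero_succ, add_zero, zero_add, tsub_self] at this ⊢
      omega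
    · have := ih m (j + 1) (by omega) (by omega)
      have c4 := choose_two_succ j
      simp only [Nat.add_sub_cancel] at this ⊢
      omega
  · have := ih E 0 (by omega) (by omega)
    have c4 := choose_two_succ E
    have c5 : (E + 1).choose 3 = E.choose 2 + E.choose 3 := Nat.choose_succ_succ' E 2
    have c6 : (E + 1).choose 3 ≤ (m + 1).choose 3 := Nat.choose_le_choose 3 (by omega)
    simp only [zero_tsub, Nat.choose_zero_succ, add_zero] at this
    omega

variable [Infinite K]

lemma stepn {V W : Submodule K A} {c : A} (hc : c ∈ V) (n : ℕ)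
    (hgen : ∀ y ∈ V, rk W (y ^ n) ⊥ ≤ rk W (c ^ n) ⊥) {y w : A} (hy : y ∈ V) (hw : w ∈ W)
    (h0 : c * w = 0) : y ^ n * w ∈ im (c ^ n) W := by
  have := one_step W ⊥ ((C c + X * C y) ^ n) (C (y ^ n * w)) (by
    intro t
    rw [eval_lin, eval_lin_zero]
    exact hgen _ (V.add_mem hc (V.smul_mem t hy))) (by
    intro t ht
    rw [eval_lin, eval_C]
    refine mem_img.2 ⟨(t⁻¹ ^ n) • w, W.smul_mem _ hw, ?_⟩
    congr 1
    rw [mul_smul_comm, pow_kill h0, smul_pow, smul_mul_assoc, smul_smul, ← mul_pow,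
      inv_mul_cancel₀ ht, one_pow, one_smul])
  rw [eval_lin_zero, eval_C] at this
  obtain ⟨w', hw', h⟩ := mem_img.1 this
  refine ⟨w', hw', ?_⟩
  have h2 := (Submodule.Quotient.eq ⊥).1 h
  exact sub_eq_zero.1 h2

lemma mul_kr_le_im {V W : Submodule K A} {c : A} (hc : c ∈ V)
    (hgen : ∀ y ∈ V, rk W (y ^ 1) ⊥ ≤ rk W (c ^ 1) ⊥) : V * kr c W ≤ kr c (im c W) := by
  rw [Submodule.mul_le]
  intro y hy w hw
  have h1 := stepn hc 1 hgen hy hw.1 hw.2
  rw [pow_one, pow_one] at h1
  exact ⟨h1, (mul_kr_le V W c (Submodule.mul_mem_mul hy hw)).2⟩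

omit [Infinite K] in
lemma all_zero {V W : Submodule K A} {c : A} {n : ℕ}
    (hgen : ∀ y ∈ V, rk W (y ^ n) ⊥ ≤ rk W (c ^ n) ⊥) (h : ∀ w ∈ W, c ^ n * w = 0) :
    ∀ y ∈ V, ∀ w ∈ W, y ^ n * w = 0 := by
  intro y hy
  have h1 : rk W (c ^ n) ⊥ = 0 := rk_eq_zero_iff.2 h
  have h2 := hgen y hy
  exact rk_eq_zero_iff.1 (by omega : rk W (y ^ n) ⊥ = 0)

/-- the rank of squares drops on the kernel -/
lemma sq_drop {V W : Submodule K A} {c : A} (hc : c ∈ V) (hF : Fai V (V * (V * W)))
    (h2 : ∀ y ∈ V, rk W (y ^ 2) ⊥ ≤ rk W (c ^ 2) ⊥)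
    (h3 : ∀ y ∈ V, rk W (y ^ 3) ⊥ ≤ rk W (c ^ 3) ⊥) (hpos : 0 < rk W (c ^ 2) ⊥) :
    ∀ y ∈ V, rk (kr c W) (y ^ 2) ⊥ < rk W (c ^ 2) ⊥ := by
  have hle : ∀ y ∈ V, im (y ^ 2) (kr c W) ≤ kr c (im (c ^ 2) W) := by
    rintro y hy _ ⟨w, hw, rfl⟩
    refine ⟨stepn hc 2 h2 hy hw.1 hw.2, ?_⟩
    have : c * w = 0 := hw.2
    change c * (y ^ 2 * w) = 0
    linear_combination y ^ 2 * this
  intro y hy
  by_contra hcon
  rw [not_lt] at hcon
  have heq : ∀ z ∈ V, rk W (c ^ 2) ⊥ ≤ rk (kr c W) (z ^ 2) ⊥ →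
      im (z ^ 2) (kr c W) = im (c ^ 2) W := by
    intro z hz hr
    rw [rk_im, rk_im] at hr
    exact Submodule.eq_of_le_of_finrank_le ((hle z hz).trans (kr_le _ _)) hr
  have hc3 : ∀ w ∈ W, c ^ 3 * w = 0 := by
    intro w hw
    have h4 : c ^ 2 * w ∈ im (y ^ 2) (kr c W) := by
      rw [heq y hy hcon]
      exact ⟨w, hw, rfl⟩
    have h5 : c * (c ^ 2 * w) = 0 := (hle y hy h4).2
    linear_combination h5
  have hy3 := all_zero h3 hc3
  have hk : ∀ z ∈ V, rk W (c ^ 2) ⊥ ≤ rk (kr c W) (z ^ 2) ⊥ → ∀ w ∈ W, z * (c ^ 2 * w) = 0 := by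
    intro z hz hr w hw
    have h4 : c ^ 2 * w ∈ im (z ^ 2) (kr c W) := by
      rw [heq z hz hr]
      exact ⟨w, hw, rfl⟩
    obtain ⟨w', hw', h5⟩ := mem_im.1 h4
    have h6 := hy3 z hz w' hw'.1
    rw [← h5]
    linear_combination h6
  have hz : ∀ w ∈ W, c ^ 2 * w = 0 := by
    intro w hw
    refine hF _ ?_ fun y' hy' => ?_
    · rw [pow_two, mul_assoc]
      exact Submodule.mul_mem_mul hc (Submodule.mul_mem_mul hc hw)
    · have hfin := (rk_cofinite (kr c W) ⊥ ((C y + X * C y') ^ 2)).union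
        (Set.finite_singleton (0 : K))
      obtain ⟨t, ht⟩ := hfin.exists_notMem
      simp only [Set.mem_union, Set.mem_ofPred_eq, Set.mem_singleton_iff, not_or, not_lt,
        eval_lin, eval_lin_zero] at ht
      have h4 := hk _ (V.add_mem hy (V.smul_mem t hy')) (hcon.trans ht.1) w hw
      rw [add_mul, hk y hy hcon w hw, zero_add, smul_mul_assoc, smul_eq_zero] at h4
      exact h4.resolve_left ht.2
  have : rk W (c ^ 2) ⊥ = 0 := rk_eq_zero_iff.2 hz
  omega

lemma exists_gen3 (V W : Submodule K A) : ∃ c ∈ V,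
    (∀ y ∈ V, rk W (y ^ 1) ⊥ ≤ rk W (c ^ 1) ⊥) ∧ (∀ y ∈ V, rk W (y ^ 2) ⊥ ≤ rk W (c ^ 2) ⊥) ∧
      ∀ y ∈ V, rk W (y ^ 3) ⊥ ≤ rk W (c ^ 3) ⊥ := by
  obtain ⟨c, hc, h⟩ := exists_generic (ι := Fin 3) V (fun _ => W) (fun _ => ⊥)
    (fun i => (i : ℕ) + 1)
  exact ⟨c, hc, h 0, h 1, h 2⟩

/-- `0` at `0`, and `s + 1` elsewhere -/
def bump (s : ℕ) : ℕ := if s = 0 then 0 else s + 1

/-- The bound for a space in top degree three. -/
theorem cubic (V : Submodule K A) (N : ℕ) : ∀ W : Submodule K A, finrank K W ≤ N → Fai V W →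
    Fai V (V * W) → Fai V (V * (V * W)) → ∀ s, (∀ y ∈ V, rk W (y ^ 2) ⊥ ≤ s) →
    ∀ n j, j ≤ n → finrank K (V * W : Submodule K A) + bump s ≤ (n + 1).choose 2 + j →
    finrank K W ≤ finrank K (V * W : Submodule K A) + n.choose 3 + (j - 1).choose 2 := by
  induction N with
  | zero => intro W h _ _ _ _ _ n j _ _; omega
  | succ N ih =>
    intro W hN f1 f2 f3 s hs n j hj hx
    obtain ⟨c, hc, g1, g2, g3⟩ := exists_gen3 V W
    by_cases hW : W = ⊥
    · have : finrank K W = 0 := Submodule.finrank_eq_zero.2 hW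
      omega
    obtain ⟨x, hxW, hx0⟩ : ∃ x ∈ W, c * x ≠ 0 := by
      by_contra hn
      push Not at hn
      have := all_zero g1 (by simpa using hn)
      apply hW
      rw [Submodule.eq_bot_iff]
      exact fun w hw => f1 w hw fun y hy => by simpa using this y hy w hw
    have l1 := kr_lt hxW hx0
    have m1 : V * kr c W ≤ V * W := (mul_kr_le V W c).trans (kr_le _ _)
    have m2 : V * (V * kr c W) ≤ V * (V * W) := mul_le_mul_right m1 V
    have ih' := ih (kr c W) (by omega) (f1.mono (kr_le _ _)) (f2.mono m1) (f3.mono m2)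
    have hq := quad V _ (V * kr c W) (f2.mono m1) (f3.mono m2) le_rfl
    have a1 := mul_kr_le_im hc g1
    have a2 := Submodule.finrank_mono a1
    have a3 := im_add_kr c (im c W)
    rw [im_im, ← pow_two, ← rk_im] at a3
    have a4 := im_add_kr c W
    have a5 := im_diff c (im_le (W := W) hc)
    rw [im_im, ← pow_two, ← rk_im (c ^ 2)] at a5
    have a6 : V * (V * kr c W) ≤ kr c (im c (V * W)) := by
      rw [Submodule.mul_le]
      intro y hy q hq
      obtain ⟨⟨w, hw, rfl⟩, h2⟩ := a1 hq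
      have h3 : c * (c * w) = 0 := h2
      refine ⟨⟨y * w, Submodule.mul_mem_mul hy hw, ?_⟩, ?_⟩
      · simp only [LinearMap.mulLeft_apply]; ring
      · change c * (y * (c * w)) = 0
        linear_combination y * h3
    have a7 := Submodule.finrank_mono a6
    have a8 := Submodule.finrank_mono (kr_le c (im c (V * W)))
    have a9 := Submodule.finrank_mono (im_le (W := W) hc)
    set u := finrank K (V * kr c W : Submodule K A) with hu
    set k := finrank K (V * (V * kr c W) : Submodule K A) with hk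
    set τ := rk W (c ^ 2) ⊥ with hτ
    obtain ⟨e, he⟩ : ∃ e, finrank K (V * W : Submodule K A) = finrank K (im c W) + e :=
      ⟨_, (Nat.add_sub_cancel' a9).symm⟩
    rcases Nat.eq_zero_or_pos τ with h0 | hpos
    · have hz := all_zero g2 (rk_eq_zero_iff.1 h0)
      have i1 := ih' 0 fun y hy =>
        (rk_eq_zero_iff.2 fun w hw => hz y hy w (kr_le _ _ hw)).le
      have i2 : u ≤ k.choose 2 := hq.2 fun y hy q hq => by
        refine Submodule.mul_induction_on hq (fun a ha w hw => ?_) fun a b h1 h2 => ?_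
        · have := hz y hy w (kr_le _ _ hw)
          linear_combination a * this
        · rw [mul_add, mul_add, h1, h2, add_zero]
      simp only [bump, if_true, add_zero] at i1
      rcases e with _ | e
      · obtain h1 : k = 0 := by omega
        rw [h1] at i2
        have := i1 0 0 le_rfl (by simpa using i2)
        simp only [Nat.choose_zero_succ, zero_tsub] at this i2
        omega
      · have i3 : k.choose 2 ≤ (e + 1).choose 2 := Nat.choose_le_choose 2 (by omega)
        have := num u e n j (finrank K (kr c W) - u) hj (by omega) (by omega) fun n' j' h1 h2 => by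
          have := i1 n' j' h1 h2
          omega
        omega
    · have d1 := sq_drop hc f3 g2 g3 hpos
      have i1 := ih' (τ - 1) fun y hy => by have := d1 y hy; omega
      have b1 : bump (τ - 1) ≤ τ := by unfold bump; split_ifs <;> omega
      have b2 : τ + 1 ≤ bump s := by
        have := hs c hc
        unfold bump; split_ifs <;> omega
      have d2 : finrank K (kr c (im c (V * W))) < finrank K (im c (V * W)) := by
        obtain ⟨w, hw, hw0⟩ : ∃ w ∈ W, c ^ 2 * w ≠ 0 := by
          by_contra hn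
          push Not at hn
          have : rk W (c ^ 2) ⊥ = 0 := rk_eq_zero_iff.2 hn
          omega
        obtain ⟨y, hy, hy0⟩ : ∃ y ∈ V, y * (c ^ 2 * w) ≠ 0 := by
          by_contra hn
          push Not at hn
          refine hw0 (f3 _ ?_ hn)
          rw [pow_two, mul_assoc]
          exact Submodule.mul_mem_mul hc (Submodule.mul_mem_mul hc hw)
        refine kr_lt (x := c * (y * w)) ⟨_, Submodule.mul_mem_mul hy hw, rfl⟩ fun h => hy0 ?_
        linear_combination h
      have i3 : (k + 1).choose 2 ≤ (e + τ).choose 2 := Nat.choose_le_choose 2 (by omega)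
      have i4 := choose_two_succ (e + τ)
      have i5 := hq.1
      have := num (u + τ) (e + τ) n j (finrank K (kr c W) - u) hj (by omega) (by omega)
        fun n' j' h1 h2 => by
          have := i1 n' j' h1 (by omega)
          omega
      omega

end Pool.Agent.MP_708e57_al.allc
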