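import Pool.Agent.MP_708e57_al.Final

/-!
Products of independent general linear forms; growth bounds over every infinite field.
-/

namespace Pool.Agent.MP_708e57_al.AllMin

open Module Finset

variable {K A : Type*} [Field K] [CommRing A] [Algebra K A]

/-- products of `e` elements of `V` -/
def Pr (V : Submodule K A) : ℕ → A → Prop
  | 0, p => p = 1
  | e + 1, p => ∃ q, Pr V e q ∧ ∃ y ∈ V, p = q * y

variable {V W Y : Submodule K A}

lemma Pr.mem {e : ℕ} {p : A} (h : Pr V e p) : p ∈ V ^ e := by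
  induction e generalizing p with
  | zero =>
    obtain rfl : p = 1 := h
    simp [Submodule.one_eq_span]
  | succ e ih =>
    obtain ⟨q, hq, y, hy, rfl⟩ := h
    rw [pow_succ]
    exact Submodule.mul_mem_mul (ih hq) hy

lemma Pr.mul {e e' : ℕ} {p p' : A} (h : Pr V e p) (h' : Pr V e' p') : Pr V (e + e') (p * p') := by
  induction e' generalizing p' with
  | zero =>
    obtain rfl : p' = 1 := h'
    simpa using h
  | succ e' ih =>
    obtain ⟨q, hq, y, hy, rfl⟩ := h'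
    exact ⟨p * q, ih hq, y, hy, (mul_assoc _ _ _).symm⟩

lemma Pr.ex (V : Submodule K A) (e : ℕ) : ∃ p, Pr V e p := by
  induction e with
  | zero => exact ⟨1, rfl⟩
  | succ e ih =>
    obtain ⟨p, hp⟩ := ih
    exact ⟨_, p, hp, 0, V.zero_mem, rfl⟩

/-- the largest rank of a product -/
noncomputable def G (V W : Submodule K A) (e : ℕ) (Y : Submodule K A) : ℕ :=
  sSup {n | ∃ p, Pr V e p ∧ rk W p Y = n}

/-- the colon -/
noncomputable abbrev col (Y : Submodule K A) (p : A) : Submodule K A :=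
  Y.comap (LinearMap.mulLeft K p)

lemma mem_col {p y : A} : y ∈ col Y p ↔ p * y ∈ Y := Iff.rfl

variable [FiniteDimensional K A]

lemma G_bdd (V W : Submodule K A) (e : ℕ) (Y : Submodule K A) :
    BddAbove {n | ∃ p, Pr V e p ∧ rk W p Y = n} :=
  ⟨finrank K W, by rintro _ ⟨p, -, rfl⟩; exact rk_le_finrank _ _ _⟩

lemma le_G {e : ℕ} {p : A} (h : Pr V e p) (W Y : Submodule K A) : rk W p Y ≤ G V W e Y :=
  le_csSup (G_bdd V W e Y) ⟨p, h, rfl⟩

lemma ex_G (V W : Submodule K A) (e : ℕ) (Y : Submodule K A) :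
    ∃ p, Pr V e p ∧ rk W p Y = G V W e Y := by
  obtain ⟨p, hp⟩ := Pr.ex V e
  exact Nat.sSup_mem (s := {n | ∃ p, Pr V e p ∧ rk W p Y = n}) ⟨_, p, hp, rfl⟩ (G_bdd V W e Y)

lemma G_zero : G V W 0 Y = rk W 1 Y := by
  obtain ⟨p, hp, h⟩ := ex_G V W 0 Y
  obtain rfl : p = 1 := hp
  exact h.symm

lemma rk_col (a b : A) : rk W a (col Y b) = rk W (b * a) Y :=
  le_antisymm (rk_le_of_ker fun w _ h => by rwa [mem_col, ← mul_assoc])
    (rk_le_of_ker fun w _ h => by rwa [mem_col, ← mul_assoc] at h)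

lemma split {L : A} (hL : L ∈ V) (p : A) (Y : Submodule K A) (i : ℕ) :
    rk (V ^ (i + 1)) p Y = rk (V ^ i) (p * L) Y +
      rk (V ^ (i + 1)) 1 (LV V L (i + 1) ⊔ (V ^ (i + 1) ⊓ col Y p)) := by
  have := fr_split (LV_le hL (i + 1)) (Y.mkQ ∘ₗ LinearMap.mulLeft K p)
  rw [LinearMap.ker_comp, Submodule.ker_mkQ] at this
  have e1 : (LV V L (i + 1)).map (Y.mkQ ∘ₗ LinearMap.mulLeft K p) = img (V ^ i) (p * L) Y := by
    rw [img, LV, ← Submodule.map_comp, LinearMap.comp_assoc, ← LinearMap.mulLeft_mul]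
  have e2 : ∀ U : Submodule K A, (V ^ (i + 1)).map U.mkQ = img (V ^ (i + 1)) 1 U := by
    intro U
    rw [img, LinearMap.mulLeft_one, LinearMap.comp_id]
  rw [e1, e2] at this
  exact this

lemma G_mono (V Y : Submodule K A) (i e : ℕ) : G V (V ^ i) (e + 1) Y ≤ G V (V ^ (i + 1)) e Y := by
  obtain ⟨_, ⟨p, hp, y, hy, rfl⟩, h⟩ := ex_G V (V ^ i) (e + 1) Y
  have h1 := split hy p Y i
  have h2 := le_G hp (V ^ (i + 1)) Y
  omega

/-- the successive differences of the largest ranks into degree `N` -/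
noncomputable def nn (V Y : Submodule K A) (N : ℕ) : ℕ → ℕ
  | 0 => G V (V ^ 0) N Y
  | i + 1 => G V (V ^ (i + 1)) (N - (i + 1)) Y - G V (V ^ i) (N - i) Y

lemma psum_nn (V Y : Submodule K A) (N i : ℕ) (hi : i ≤ N) :
    psum (nn V Y N) i = G V (V ^ i) (N - i) Y := by
  induction i with
  | zero => simp [psum, nn]
  | succ i ih =>
    have h := G_mono V Y i (N - (i + 1))
    rw [show N - (i + 1) + 1 = N - i by omega] at h
    rw [psum_succ, ih (by omega), nn]
    omega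

variable [Infinite K]

lemma gen {ι : Type} [Fintype ι] (V : Submodule K A) (W Y : ι → Submodule K A) :
    ∃ L ∈ V, ∀ a, ∀ L' ∈ V, rk (W a) L' (Y a) ≤ rk (W a) L (Y a) := by
  simpa using exists_generic V W Y fun _ => 1

lemma gen2 (V W Y W' Y' : Submodule K A) : ∃ L ∈ V, (∀ L' ∈ V, rk W L' Y ≤ rk W L Y) ∧
    ∀ L' ∈ V, rk W' L' Y' ≤ rk W' L Y' := by
  obtain ⟨L, hL, h⟩ := gen V ![W, W'] ![Y, Y']
  exact ⟨L, hL, h 0, h 1⟩

lemma both {e : ℕ} (W W' : Submodule K A) : ∀ (Y Y' : Submodule K A) {p p' : A}, Pr V e p →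
    Pr V e p' → ∃ q, Pr V e q ∧ rk W p Y ≤ rk W q Y ∧ rk W' p' Y' ≤ rk W' q Y' := by
  induction e with
  | zero =>
    intro Y Y' p p' h h'
    obtain rfl : p = 1 := h
    obtain rfl : p' = 1 := h'
    exact ⟨1, rfl, le_rfl, le_rfl⟩
  | succ e ih =>
    rintro Y Y' _ _ ⟨p, hp, y, hy, rfl⟩ ⟨p', hp', y', hy', rfl⟩
    obtain ⟨q, hq, h1, h2⟩ := ih (col Y y) (col Y' y') hp hp'
    obtain ⟨L, hL, h3, h4⟩ := gen2 V W (col Y q) W' (col Y' q)
    have h5 := h3 y hy
    have h6 := h4 y' hy'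
    simp only [rk_col] at h1 h2 h5 h6
    rw [mul_comm y, mul_comm y] at h1
    rw [mul_comm y', mul_comm y'] at h2
    exact ⟨q * L, ⟨q, hq, L, hL, rfl⟩, h1.trans h5, h2.trans h6⟩

lemma step (V Y : Submodule K A) {N i : ℕ} (hi : i < N) : ∃ D : Submodule K A,
    nn V Y N (i + 1) ≤ rk (V ^ (i + 1)) 1 D ∧ ∀ L ∈ V, rk (V ^ i) L D ≤ nn V Y N i := by
  obtain ⟨e, rfl⟩ : ∃ e, N = i + 1 + e := ⟨N - (i + 1), by omega⟩
  obtain ⟨p, hp, h⟩ := ex_G V (V ^ (i + 1)) e Y
  rcases i with _ | j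
  · refine ⟨col Y p, ?_, fun L hL => ?_⟩
    · rw [rk_col, mul_one, h, nn, show 0 + 1 + e - (0 + 1) = e by omega]
      exact Nat.sub_le _ _
    · rw [rk_col, nn, show 0 + 1 + e = e + 1 by omega]
      exact le_G (e := e + 1) ⟨p, hp, L, hL, rfl⟩ _ _
  · obtain ⟨_, ⟨_, ⟨p', hp', y, hy, rfl⟩, y', hy', rfl⟩, h'⟩ := ex_G V (V ^ j) (e + 1 + 1) Y
    obtain ⟨q, hq, h1, h2⟩ := both (V ^ (j + 1 + 1)) (V ^ j) Y (col Y (y * y')) hp hp'
    rw [rk_col, rk_col, show y * y' * p' = p' * y * y' by ring, h'] at h2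
    have e1 : j + 1 + 1 + e - (j + 1 + 1) = e := by omega
    have e2 : j + 1 + 1 + e - (j + 1) = e + 1 := by omega
    have e3 : j + 1 + 1 + e - j = e + 1 + 1 := by omega
    refine ⟨LV V y (j + 1 + 1) ⊔ (V ^ (j + 1 + 1) ⊓ col Y q), ?_, fun L hL => ?_⟩
    · have h3 := split hy q Y (j + 1)
      have h4 := le_G (e := e + 1) ⟨q, hq, y, hy, rfl⟩ (V ^ (j + 1)) Y
      rw [nn, e1, e2]
      omega
    · obtain ⟨c, hc, h3, h4⟩ := gen2 V (V ^ (j + 1))
        (LV V y (j + 1 + 1) ⊔ (V ^ (j + 1 + 1) ⊓ col Y q)) (V ^ j) (col Y (q * y))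
      have h5 := h4 y' hy'
      rw [rk_col, rk_col, show q * y * y' = y * y' * q by ring,
        show q * y * c = q * c * y by ring] at h5
      have h6 := split hy (q * c) Y j
      have h7 := le_G (e := e + 1) ⟨q, hq, c, hc, rfl⟩ (V ^ (j + 1)) Y
      have h8 : rk (V ^ (j + 1)) c (LV V y (j + 1 + 1) ⊔ (V ^ (j + 1 + 1) ⊓ col Y q)) ≤
          rk (V ^ (j + 1)) 1 (LV V y (j + 1) ⊔ (V ^ (j + 1) ⊓ col Y (q * c))) := by
        refine rk_le_of_ker fun w _ hw => ?_
        rw [one_mul] at hw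
        obtain ⟨_, ⟨u, hu, rfl⟩, b, hb, rfl⟩ := Submodule.mem_sup.1 hw
        rw [mul_add]
        refine Submodule.add_mem _ (Submodule.mem_sup_left ⟨c * u, mul_mem_pow_succ hc hu, ?_⟩)
          (Submodule.mem_sup_right ⟨mul_mem_pow_succ hc hb.1, ?_⟩)
        · simp only [LinearMap.mulLeft_apply]
          ring
        · have : q * c * b ∈ Y := hb.2
          rwa [mul_assoc] at this
      have h9 := h3 L hL
      rw [nn, e2, e3]
      omega

lemma growth_bdd (V : Submodule K A) (B : ℕ) : ∀ (Y : Submodule K A) (l ρ : ℕ) (b : ℕ → ℕ),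
    (∀ j < l, b j ≤ B) → (∀ L ∈ V, rk (V ^ l) L Y ≤ ρ) → ρ ≤ val l b →
      rk (V ^ (l + 1)) 1 Y ≤ ρ + up l (fun i => b i - 1) := by
  induction B with
  | zero =>
    intro Y l ρ b hb h h'
    have h0 : val l b = 0 := sum_eq_zero fun i hi => by
      rw [Nat.le_zero.1 (hb i (mem_range.1 hi))]; simp
    have : rk (V ^ (l + 1)) 1 Y = 0 := by
      rw [rk_eq_zero_iff]
      intro w hw
      rw [one_mul]
      rw [pow_succ'] at hw
      refine Submodule.mul_induction_on hw (fun y hy z hz => ?_) fun a b ha hb => Y.add_mem ha hb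
      exact rk_eq_zero_iff.1 (show rk (V ^ l) y Y = 0 by have := h y hy; omega) z hz
    omega
  | succ B ih =>
    intro Y l ρ b hb h h'
    have weak : ∀ i ≤ l, ∀ b : ℕ → ℕ, (∀ j < i, b j ≤ B) → nn V Y (l + 1) i ≤ val i b →
        nn V Y (l + 1) (i + 1) ≤ up i b := by
      intro i hi b hb h
      obtain ⟨D, h1, h2⟩ := step V Y (N := l + 1) (i := i) (by omega)
      have := ih D i _ b hb h2 h
      have := val_add_up i b
      omega
    have hs := psum_nn V Y (l + 1) l (by omega)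
    have hs' := psum_nn V Y (l + 1) (l + 1) le_rfl
    rw [psum_succ, Nat.sub_self, G_zero] at hs'
    have hρ : psum (nn V Y (l + 1)) l ≤ ρ := by
      rw [hs, show l + 1 - l = 0 + 1 by omega]
      obtain ⟨_, ⟨p, hp, y, hy, rfl⟩, e⟩ := ex_G V (V ^ l) (0 + 1) Y
      obtain rfl : p = 1 := hp
      rw [← e, one_mul]
      exact h y hy
    have h1 := green _ B l (fun i hi => weak i hi.le) b hb (le_trans hρ h')
    have h2 := weak l le_rfl _ (fun j hj => by have := hb j hj; omega) h1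
    omega

/-- The differences of the largest ranks grow like a Hilbert function. -/
theorem sos_nn (V Y : Submodule K A) {N i : ℕ} (hi : i < N) : SOS (nn V Y N) i := by
  intro b hb
  obtain ⟨B, hB⟩ := exists_bound i b
  obtain ⟨D, h1, h2⟩ := step V Y hi
  exact h1.trans (growth_bdd V B D i _ b hB h2 hb)

end Pool.Agent.MP_708e57_al.AllMin
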