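import Pool.Agent.MP_708e57_al.allc.MinA

/-!
The cubic inequality: kernels of general linear forms on a symmetric trilinear form.
-/

namespace Pool.Agent.MP_708e57_al.AllMin

open Module Finset Polynomial

variable {K A : Type*} [Field K] [CommRing A] [Algebra K A] [FiniteDimensional K A]
variable {V W W' Y : Submodule K A} {d e : ℕ} {φ : A →ₗ[K] K} {P : A}

lemma ch (y : ℕ) : (y + 1 + 1).choose 2 = y + 1 + (y + 1).choose 2 := by
  rw [Nat.choose_succ_succ' (y + 1) 1, Nat.choose_one_right]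

lemma rk_lt (h : W' ≤ W) {l z : A} (hz : z ∈ W) (hn : ∀ w ∈ W', l * (z - w) ∉ Y) :
    rk W' l Y < rk W l Y := by
  refine Submodule.finrank_lt_finrank_of_lt (lt_of_le_of_ne (Submodule.map_mono h) fun e => ?_)
  have : Y.mkQ (l * z) ∈ img W' l Y := by
    have h1 : Y.mkQ (l * z) ∈ img W l Y := mem_img.2 ⟨z, hz, rfl⟩
    exact (show img W' l Y = img W l Y from e) ▸ h1
  obtain ⟨w, hw, h2⟩ := mem_img.1 this
  apply hn w hw
  rw [mul_sub]
  exact (Submodule.Quotient.eq Y).1 h2.symm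

lemma rk_onto (h : W' ≤ W) {l : A} (hr : rk W l Y ≤ rk W' l Y) {u : A} (hu : u ∈ W) :
    ∃ w ∈ W', l * (u - w) ∈ Y := by
  by_contra hn
  push Not at hn
  have := rk_lt h hu hn
  omega

lemma rk_one_le (W Y : Submodule K A) (c : A) (Y' : Submodule K A) :
    rk W 1 Y ≤ rk W c Y' + rk (W ⊓ col Y' c) 1 Y := by
  have h1 := rk_add W 1 Y
  have h2 := rk_add W c Y'
  have h3 := rk_add (W ⊓ col Y' c) 1 Y
  have h4 : finrank K (W ⊓ col Y' c ⊓ col Y 1 : Submodule K A) ≤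
      finrank K (W ⊓ col Y 1 : Submodule K A) :=
    Submodule.finrank_mono (inf_le_inf_right _ inf_le_left)
  unfold col at *
  omega

lemma ex_of_pos {l : A} (h : 1 ≤ rk W l Y) : ∃ z ∈ W, l * z ∉ Y := by
  by_contra hn
  push Not at hn
  have := rk_eq_zero_iff.2 hn
  omega

omit [FiniteDimensional K A] in
lemma mem3 (hp : P ∈ V ^ e) {x y : A} (hx : x ∈ V) (hy : y ∈ V) : P * (x * y) ∈ V ^ (e + 2) :=
  mul_mem_pow_add hp (by rw [pow_two]; exact Submodule.mul_mem_mul hx hy)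

/-- a nonzero element of codegree one is seen by a general linear form -/
lemma seen (hP : Perf V d φ) (hd : e + 3 = d) {u l : A} (hu : u ∈ V ^ (e + 2)) (h0 : u ≠ 0)
    (hl : ∀ L ∈ V, rk (K ∙ u) L (LinearMap.ker φ) ≤ rk (K ∙ u) l (LinearMap.ker φ)) :
    φ (l * u) ≠ 0 := by
  intro h
  have h1 : rk (K ∙ u) l (LinearMap.ker φ) = 0 := by
    rw [rk_eq_zero_iff]
    intro w hw
    obtain ⟨a, rfl⟩ := Submodule.mem_span_singleton.1 hw
    rw [mul_smul_comm]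
    exact Submodule.smul_mem _ _ h
  refine h0 (hP (e + 2) 1 (by omega) u hu fun w hw => ?_)
  rw [pow_one] at hw
  have h2 := hl w hw
  rw [mul_comm]
  exact rk_eq_zero_iff.1 (show rk (K ∙ u) w (LinearMap.ker φ) = 0 by omega) u
    (Submodule.mem_span_singleton_self u)

variable [Infinite K]

/-- the quadratic bound -/
lemma quad (hP : Perf V d φ) (hd : e + 3 = d) (hp : P ∈ V ^ e) (y : ℕ) :
    ∀ W ≤ V, (∀ l ∈ V, rk W l (col ⊥ P) ≤ y) → rk W 1 (col ⊥ P) ≤ (y + 1).choose 2 := by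
  have base : ∀ W ≤ V, (∀ l ∈ V, rk W l (col ⊥ P) ≤ 0) → rk W 1 (col ⊥ P) = 0 := by
    intro W hW h
    rw [rk_eq_zero_iff]
    intro w hw
    rw [one_mul]
    refine hP (e + 1) 2 (by omega) (P * w) (mul_mem_pow_add hp (by simpa using hW hw))
      fun v hv => ?_
    rw [pow_two] at hv
    refine Submodule.mul_induction_on hv (fun a ha b _ => ?_) fun a b ha hb => ?_
    · have : P * (a * w) = 0 := rk_eq_zero_iff.1 (Nat.le_zero.1 (h a ha)) w hw
      rw [show P * w * (a * b) = P * (a * w) * b by ring, this, zero_mul, map_zero]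
    · rw [mul_add, map_add, ha, hb, add_zero]
  induction y with
  | zero => intro W hW h; exact (base W hW h).le.trans (Nat.zero_le _)
  | succ y ih =>
    intro W hW h
    by_cases h0 : ∀ l ∈ V, rk W l (col ⊥ P) ≤ 0
    · exact (base W hW h0).le.trans (Nat.zero_le _)
    push Not at h0
    obtain ⟨c, hc, h1⟩ := h0
    obtain ⟨z, hz, hz'⟩ := ex_of_pos h1
    obtain ⟨l, hl, g1, g2⟩ := gen2 V (W ⊓ col (col ⊥ P) c) (col ⊥ P) (K ∙ (P * (c * z)))
      (LinearMap.ker φ)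
    have h2 := seen hP hd (mem3 hp hc (hW hz)) hz' g2
    have h3 : rk (W ⊓ col (col ⊥ P) c) l (col ⊥ P) < rk W l (col ⊥ P) := by
      refine rk_lt inf_le_left hz fun w hw hn => h2 ?_
      have a1 : P * (c * w) = 0 := hw.2
      have a2 : P * (l * (z - w)) = 0 := hn
      rw [show l * (P * (c * z)) = c * (P * (l * (z - w))) + l * (P * (c * w)) by ring, a1, a2]
      simp
    have h4 := ih _ (inf_le_left.trans hW) fun L hL =>
      (g1 L hL).trans (by have := h l hl; omega)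
    have h5 := rk_one_le W (col ⊥ P) c (col ⊥ P)
    have h6 := h c hc
    rw [ch]
    omega

/-- the kernel of a form of largest rank is isotropic -/
lemma iso {a l u : A} (ha : a ∈ V) (g : ∀ L ∈ V, rk V L Y ≤ rk V a Y) (hl : l ∈ V)
    (hu : u ∈ V ⊓ col Y a) : ∃ s, a * s + l * u ∈ Y := by
  obtain ⟨w, -, hw⟩ := chain_step V Y ((C a + X * C l) ^ 1) (by
      intro t
      rw [eval_lin, eval_lin_zero, pow_one, pow_one]
      exact g _ (V.add_mem ha (V.smul_mem t hl))) 0 (fun _ => u) (fun _ _ => hu.1) (by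
      intro k hk
      obtain rfl : k = 0 := by omega
      rw [Finset.Nat.antidiagonal_zero, sum_singleton, coeff_zero_lin, pow_one]
      exact hu.2)
  refine ⟨w, ?_⟩
  simpa using hw

lemma iso' {a l u v : A} (ha : a ∈ V) (g : ∀ L ∈ V, rk V L (col ⊥ P) ≤ rk V a (col ⊥ P))
    (hl : l ∈ V) (hu : u ∈ V ⊓ col (col ⊥ P) a) (hv : v ∈ V ⊓ col (col ⊥ P) a) :
    P * l * (u * v) = 0 := by
  obtain ⟨s, hs⟩ := iso ha g hl hu
  have a1 : P * (a * s + l * u) = 0 := hs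
  have a2 : P * (a * v) = 0 := hv.2
  rw [show P * l * (u * v) = P * (a * s + l * u) * v - s * (P * (a * v)) by ring, a1, a2]
  simp

/-- The cubic inequality. -/
theorem cubic (hP : Perf V d φ) (hd : e + 3 = d) (hp : P ∈ V ^ e) (ρ : ℕ)
    (hρ : ∀ l ∈ V, rk V (P * l) ⊥ ≤ ρ) : rk V P ⊥ ≤ ρ + (ρ / 2).choose 2 + 1 := by
  set Y : Submodule K A := col ⊥ P with hY
  set x := ρ / 2 with hx
  have half : ∀ l ∈ V, ∀ S ≤ V, (∀ u ∈ S, ∀ v ∈ S, P * l * (u * v) = 0) → rk S l Y ≤ x := by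
    intro l hl S hS h
    have h1 := hP.isotropic (e := e + 1) (a := P * l) (mul_mem_pow_add hp (by simpa using hl))
      (by omega) hS h
    have h2 := hρ l hl
    rw [hY, rk_col]
    omega
  by_contra hc
  have big : ∀ a ∈ V, x.choose 2 + 1 < rk (V ⊓ col Y a) 1 Y := by
    intro a ha
    have h1 := rk_one_le V Y a Y
    have h2 := hρ a ha
    rw [hY, rk_col, rk_col, mul_one, ← hY] at h1
    omega
  have small : ∀ a ∈ V, (∀ L ∈ V, rk V L Y ≤ rk V a Y) → ∀ l ∈ V, rk (V ⊓ col Y a) l Y ≤ x :=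
    fun a ha g l hl => half l hl _ inf_le_left fun u hu v hv => iso' ha g hl hu hv
  obtain ⟨a, ha, ga, -⟩ := gen2 V V Y V Y
  obtain ⟨y, hy⟩ : ∃ y, x = y + 1 + 1 := by
    refine ⟨x - 2, ?_⟩
    by_contra hn
    have h1 := quad hP hd hp x _ inf_le_left (small a ha ga)
    have h2 := big a ha
    have h3 : x = 0 ∨ x = 1 := by omega
    rw [← hY] at h1
    rcases h3 with h3 | h3 <;> rw [h3] at h1 h2 <;> simp at h1 h2 <;> omega
  have H1 : ∀ a ∈ V, ∀ l, (∀ L ∈ V, rk (V ⊓ col Y a) L Y ≤ rk (V ⊓ col Y a) l Y) →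
      y + 2 ≤ rk (V ⊓ col Y a) l Y := by
    intro a ha l g
    by_contra hn
    have h1 := quad hP hd hp (y + 1) (V ⊓ col Y a) inf_le_left fun L hL =>
      (g L hL).trans (by omega)
    have h2 := big a ha
    rw [hy] at h2
    rw [← hY] at h1
    exact absurd h1 (by omega)
  have H2 : ∀ a ∈ V, (∀ L ∈ V, rk V L Y ≤ rk V a Y) → ∀ b ∈ V, ∀ l,
      (∀ L ∈ V, rk (V ⊓ col Y a ⊓ col Y b) L Y ≤ rk (V ⊓ col Y a ⊓ col Y b) l Y) →
      y + 1 ≤ rk (V ⊓ col Y a ⊓ col Y b) l Y := by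
    intro a ha ga b hb l g
    by_contra hn
    have h1 := quad hP hd hp y (V ⊓ col Y a ⊓ col Y b) (inf_le_left.trans inf_le_left) fun L hL =>
      (g L hL).trans (by omega)
    have h2 := big a ha
    have h3 := rk_one_le (V ⊓ col Y a) Y b Y
    have h4 := small a ha ga b hb
    rw [hy, ch] at h2
    rw [← hY] at h1
    omega
  obtain ⟨b, hb, gb, gb'⟩ := gen2 V V Y (V ⊓ col Y a) Y
  obtain ⟨z1, hz1, hz1'⟩ := ex_of_pos (le_trans (by omega) (H1 a ha b gb'))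
  obtain ⟨c, hc', gc, gc'⟩ := gen2 V V Y (V ⊓ col Y a ⊓ col Y b) Y
  obtain ⟨z, hz, hz'⟩ := ex_of_pos (le_trans (by omega) (H2 a ha ga b hb c gc'))
  obtain ⟨l, hl, gl⟩ := gen V
    ![V ⊓ col Y b, V ⊓ col Y a ⊓ col Y c, V ⊓ col Y b ⊓ col Y c, K ∙ (P * (b * z1)),
      K ∙ (P * (c * z))] ![Y, Y, Y, LinearMap.ker φ, LinearMap.ker φ]
  have k0 := H1 b hb l (gl 0)
  have k1 := H2 a ha ga c hc' l (gl 1)
  have k2 := H2 b hb gb c hc' l (gl 2)
  have k3 := seen hP hd (mem3 hp hb hz1.1) hz1' (gl 3)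
  have k4 := seen hP hd (mem3 hp hc' hz.1.1) hz' (gl 4)
  have far : ∀ {t u w : A}, φ (l * (P * (t * u))) ≠ 0 → w ∈ col Y t → l * (u - w) ∉ Y := by
    intro t u w h hw hn
    apply h
    have a1 : P * (t * w) = 0 := hw
    have a2 : P * (l * (u - w)) = 0 := hn
    rw [show l * (P * (t * u)) = t * (P * (l * (u - w))) + l * (P * (t * w)) by ring, a1, a2]
    simp
  have dec : ∀ t ∈ V, (∀ L ∈ V, rk V L Y ≤ rk V t Y) → z ∈ V ⊓ col Y t →
      y + 1 ≤ rk (V ⊓ col Y t ⊓ col Y c) l Y → ∀ u ∈ V ⊓ col Y t,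
        ∃ j ∈ V ⊓ col Y t ⊓ col Y c, ∃ α : K, P * (l * (u - (j + α • z))) = 0 := by
    intro t ht gt hzt k u hu
    have h1 : rk (V ⊓ col Y t ⊓ col Y c) l Y < rk ((V ⊓ col Y t ⊓ col Y c) ⊔ K ∙ z) l Y :=
      rk_lt le_sup_left (Submodule.mem_sup_right (Submodule.mem_span_singleton_self z))
        fun w hw => far k4 hw.2
    have h2 := small t ht gt l hl
    obtain ⟨w, hw, hw'⟩ := rk_onto (W' := (V ⊓ col Y t ⊓ col Y c) ⊔ K ∙ z) (l := l) (Y := Y)
      (sup_le inf_le_left ((Submodule.span_singleton_le_iff_mem _ _).2 hzt)) (by omega) hu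
    obtain ⟨j, hj, w', hw'', rfl⟩ := Submodule.mem_sup.1 hw
    obtain ⟨α, rfl⟩ := Submodule.mem_span_singleton.1 hw''
    exact ⟨j, hj, α, hw'⟩
  have hzb : z ∈ V ⊓ col Y b := ⟨hz.1.1, hz.2⟩
  have cross : ∀ u ∈ V ⊓ col Y a, ∀ v ∈ V ⊓ col Y b, P * l * (u * v) = 0 := by
    intro u hu v hv
    obtain ⟨j, hj, α, e1⟩ := dec a ha ga hz.1 k1 u hu
    obtain ⟨j', hj', β, e2⟩ := dec b hb gb hzb k2 v hv
    have i1 := iso' hc' gc hl ⟨hj.1.1, hj.2⟩ ⟨hj'.1.1, hj'.2⟩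
    have i2 := iso' ha ga hl hj.1 hz.1
    have i3 := iso' hb gb hl hzb hv
    rw [Algebra.smul_def] at e1 e2
    linear_combination v * e1 + j * e2 + i1 + algebraMap K A β * i2 + algebraMap K A α * i3
  have h1 := half l hl ((V ⊓ col Y a) ⊔ (V ⊓ col Y b)) (sup_le inf_le_left inf_le_left) (by
    intro u hu v hv
    obtain ⟨u1, hu1, u2, hu2, rfl⟩ := Submodule.mem_sup.1 hu
    obtain ⟨v1, hv1, v2, hv2, rfl⟩ := Submodule.mem_sup.1 hv
    linear_combination iso' ha ga hl hu1 hv1 + cross u1 hu1 v2 hv2 + cross v1 hv1 u2 hu2 +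
      iso' hb gb hl hu2 hv2)
  have h2 : rk (V ⊓ col Y b) l Y < rk ((V ⊓ col Y a) ⊔ (V ⊓ col Y b)) l Y :=
    rk_lt le_sup_right (Submodule.mem_sup_left hz1) fun w hw => far k3 hw.2
  omega

end Pool.Agent.MP_708e57_al.AllMin
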