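import Pool.Agent.MP_708e57_al.allc.MinB

/-!
Every Gorenstein Hilbert function dominates one of trivial extension type, over every field.
-/

namespace Pool.Agent.MP_708e57_al.AllMin

open Module Finset

universe u

lemma val_top (l : ℕ) (a c : ℕ) :
    val (l + 2) (fun i => if i = l + 1 then a else if i = l then c else 0) =
      a.multichoose (l + 2) + c.multichoose (l + 1) := by
  unfold val
  rw [sum_range_succ, sum_range_succ, sum_eq_zero]
  · simp only [show l ≠ l + 1 by omega, if_true, if_false, zero_add]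
    exact add_comm _ _
  · intro i hi
    have := mem_range.1 hi
    simp [this.ne, show i ≠ l + 1 by omega]

lemma up_top (l : ℕ) (a c : ℕ) :
    up (l + 2) (fun i => if i = l + 1 then a else if i = l then c else 0) =
      a.multichoose (l + 3) + c.multichoose (l + 2) := by
  unfold up
  rw [sum_range_succ, sum_range_succ, sum_eq_zero]
  · simp only [show l ≠ l + 1 by omega, if_true, if_false, zero_add]
    exact add_comm _ _
  · intro i hi
    have := mem_range.1 hi
    simp [this.ne, show i ≠ l + 1 by omega]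

/-- the numerical step -/
lemma numeric (n : ℕ → ℕ) (N : ℕ) (hs : ∀ i < N, SOS n i) (hN : 2 ≤ N) (h0 : n 0 ≤ 1)
    (hr : 2 ≤ psum n N) (h2 : n 2 ≤ (psum n 1 / 2).choose 2 + 1) :
    ∃ t : ℕ → ℕ, IsOSeq t ∧ psum t 1 + psum t N ≤ psum n N ∧ ∀ a i, 1 ≤ a → a + i = N →
      psum t (1 + i) + psum t a + psum n 1 + psum n N ≤
        psum n (1 + i) + psum n a + psum t 1 + psum t N := by
  have zero : ∀ i < N, n i = 0 → n (i + 1) = 0 := by
    intro i hi h
    have := (hs i hi).weak (fun _ => 0) (by omega)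
    simpa [up] using this
  have p1 : psum n 1 = n 0 + n 1 := by simp [psum, sum_range_succ]
  have n1 : n 1 ≠ 0 := by
    intro h
    have : ∀ i ≤ N, 1 ≤ i → n i = 0 ∧ psum n i ≤ 1 := by
      intro i hi h1
      induction i, h1 using Nat.le_induction with
      | base => omega
      | succ i _ ih =>
        have := ih (by omega)
        have := zero i (by omega) this.1
        rw [psum_succ]
        omega
    have := this N le_rfl (by omega)
    omega
  have n0 : n 0 = 1 := by
    by_contra h
    exact n1 (zero 0 (by omega) (by omega))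
  obtain ⟨y, hy⟩ : ∃ y, psum n 1 / 2 = y + 1 := ⟨psum n 1 / 2 - 1, by omega⟩
  have f2 : y.multichoose 2 = (y + 1).choose 2 := by simp [Nat.multichoose_eq]
  have A0 : ∀ l, l + 2 < N → n (l + 2) ≤ y.multichoose (l + 2) →
      n (l + 3) ≤ y.multichoose (l + 3) := by
    intro l hl h
    have := (hs (l + 2) hl).weak (fun i => if i = l + 1 then y else if i = l then 0 else 0)
      (by rw [val_top]; omega)
    rw [up_top] at this
    simpa using this
  have A1 : ∀ l, l + 2 ≤ N → n (l + 2) ≤ y.multichoose (l + 2) + 1 := by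
    intro l
    induction l with
    | zero => intro _; rw [zero_add, f2, ← hy]; exact h2
    | succ l ih =>
      intro hl
      have := (hs (l + 2) (by omega)).weak
        (fun i => if i = l + 1 then y else if i = l then 1 else 0)
        (by rw [val_top]; simpa using ih (by omega))
      simpa [up_top] using this
  have A2 : ∀ l c, l + c + 2 ≤ N → n (l + 2) ≤ y.multichoose (l + 2) →
      n (l + c + 2) ≤ y.multichoose (l + c + 2) := by
    intro l c
    induction c with
    | zero => exact fun _ h => h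
    | succ c ih => exact fun h h' => A0 (l + c) (by omega) (ih (by omega) h')
  set t : ℕ → ℕ := fun i => if i ≤ N then min (n i) (y.multichoose i) else 0 with ht
  have tv : ∀ i ≤ N, t i = min (n i) (y.multichoose i) := fun i hi => by simp [ht, hi]
  have t0 : t 0 = 1 := by rw [tv 0 (by omega), n0]; simp
  have t1 : t 1 = y := by
    rw [tv 1 (by omega), Nat.multichoose_one_right]
    omega
  have q1 : psum t 1 = t 0 + t 1 := by simp [psum, sum_range_succ]
  refine ⟨t, ⟨t0, fun l hl => ?_⟩, ?_, ?_⟩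
  · by_cases h : l + 1 ≤ N
    · rw [tv _ h, tv l (by omega)]
      rcases le_total (n l) (y.multichoose l) with k | k
      · rw [min_eq_left k]
        exact (min_le_left _ _).trans ((hs l h).le_mac hl)
      · rw [min_eq_right k]
        exact (min_le_right _ _).trans ((isOSeq_mc y).2 l hl)
    · simp [ht, h]
  · have := psum_cmp t n (a := 1) (b := N) (by omega) fun j _ hj => by
      rw [tv j hj]; exact min_le_left _ _
    omega
  · have key : ∀ a i, 1 ≤ a → a + i ≤ N →
        psum t (1 + i) + psum t a + psum n 1 + psum n (a + i) ≤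
          psum n (1 + i) + psum n a + psum t 1 + psum t (a + i) := by
      intro a i ha
      induction i with
      | zero => intro _; simp only [add_zero]; omega
      | succ i ih =>
        intro hi
        obtain ⟨c, rfl⟩ : ∃ c, a = c + 1 := ⟨a - 1, by omega⟩
        have h1 := ih (by omega)
        have h3 := A1 (i + c) (by omega)
        have h4 := A2 i c (by omega)
        have h5 := tv (i + 2) (by omega)
        have h6 := tv (i + c + 2) (by omega)
        have e1 : 1 + i + 1 = i + 2 := by omega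
        have e2 : c + 1 + i + 1 = i + c + 2 := by omega
        rw [← add_assoc, ← add_assoc, psum_succ t (1 + i), psum_succ n (1 + i),
          psum_succ t (c + 1 + i), psum_succ n (c + 1 + i), e1, e2]
        omega
    intro a i ha hi
    have := key a i ha hi.le
    rwa [hi] at this

section
variable {K A : Type*} [Field K] [CommRing A] [Algebra K A] [FiniteDimensional K A]
variable {V : Submodule K A} {d : ℕ} {φ : A →ₗ[K] K}

lemma sylv {p q : A} {j : ℕ} (hq : q ∈ V ^ j) :
    rk (V ^ (1 + j)) p ⊥ + rk V q ⊥ ≤ rk V (p * q) ⊥ + finrank K (V ^ (1 + j) : Submodule K A) := by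
  have hle : V.map (LinearMap.mulLeft K q) ≤ V ^ (1 + j) := by
    rintro _ ⟨w, hw, rfl⟩
    rw [add_comm]
    exact mul_mem_pow_add hq (by rwa [pow_one])
  have h1 := fr_split hle (LinearMap.mulLeft K p)
  rw [← Submodule.map_comp, ← LinearMap.mulLeft_mul, ← rk_bot, ← rk_bot] at h1
  set U := V.map (LinearMap.mulLeft K q) ⊔
    (V ^ (1 + j) ⊓ LinearMap.ker (LinearMap.mulLeft K p)) with hU
  have h2 := fr_map (V ^ (1 + j)) U.mkQ
  rw [Submodule.ker_mkQ] at h2
  have h3 : finrank K (V.map (LinearMap.mulLeft K q)) ≤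
      finrank K (V ^ (1 + j) ⊓ U : Submodule K A) :=
    Submodule.finrank_mono (le_inf hle le_sup_left)
  rw [← rk_bot] at h3
  omega

variable [Infinite K]

theorem dominate (hP : Perf V d φ) (hd : 2 ≤ d) (h2 : 2 ≤ finrank K V) :
    ∃ t : ℕ → ℕ, IsOSeq t ∧ psum t 1 + psum t (d - 1) ≤ finrank K V ∧
      ∀ k, 2 ≤ k → 2 * k ≤ d → psum t k + psum t (d - k) + finrank K V ≤
        finrank K (V ^ k : Submodule K A) + psum t 1 + psum t (d - 1) := by
  by_cases hd4 : d < 4
  · exact ⟨triv, isOSeq_of_SOS rfl SOS_triv, by rw [psum_triv, psum_triv]; omega,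
      fun k _ _ => by omega⟩
  obtain ⟨e, rfl⟩ : ∃ e, d = e + 3 := ⟨d - 3, by omega⟩
  have hS := psum_nn V ⊥ (e + 2)
  set n := nn V ⊥ (e + 2) with hn
  have hr : finrank K V = psum n (e + 2) := by
    rw [hS _ le_rfl, Nat.sub_self, G_zero, rk_one_bot,
      ← hP.finrank_symm (i := 1) (by omega), pow_one]
  have s1 : psum n 1 = G V V (e + 1) ⊥ := by
    rw [hS 1 (by omega), pow_one, show e + 2 - 1 = e + 1 by omega]
  have n0 : n 0 ≤ 1 := by
    obtain ⟨p, -, h⟩ := ex_G V (V ^ 0) (e + 2) ⊥
    rw [hn, nn, ← h]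
    exact rk_zero_le_one _ _ _
  have n2 : n 2 ≤ (psum n 1 / 2).choose 2 + 1 := by
    obtain ⟨p, hp, h⟩ := ex_G V (V ^ 2) e ⊥
    have h1 := hP.rk_dual hp.mem (i := 2) (j := 1) (by omega)
    have h3 := cubic hP rfl hp.mem (psum n 1) fun l hl => by
      rw [s1]
      exact le_G (e := e + 1) ⟨p, hp, l, hl, rfl⟩ _ _
    have h4 := hS 2 (by omega)
    rw [psum_succ n 1, show e + 2 - 2 = e by omega] at h4
    rw [pow_one] at h1
    have : n (1 + 1) = n 2 := rfl
    omega
  obtain ⟨t, ht, h3, h4⟩ := numeric n (e + 2) (fun i hi => sos_nn V ⊥ hi) (by omega) n0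
    (hr ▸ h2) n2
  refine ⟨t, ht, hr ▸ h3, fun k hk1 hk2 => ?_⟩
  obtain ⟨j, rfl⟩ : ∃ j, k = 1 + j := ⟨k - 1, by omega⟩
  have h5 := h4 (e + 3 - (1 + j)) j (by omega) (by omega)
  obtain ⟨p, hp, e1⟩ := ex_G V (V ^ (1 + j)) (e + 2 - (1 + j)) ⊥
  obtain ⟨q, hq, e2⟩ := ex_G V (V ^ (e + 3 - (1 + j))) j ⊥
  have h6 := sylv (p := p) hq.mem
  have h7 := hP.rk_dual hq.mem (i := 1) (j := e + 3 - (1 + j)) (by omega)
  have h8 := le_G (hp.mul hq) V ⊥
  have h9 := hS (1 + j) (by omega)
  have h10 := hS (e + 3 - (1 + j)) (by omega)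
  rw [show e + 2 - (e + 3 - (1 + j)) = j by omega] at h10
  rw [show e + 2 - (1 + j) + j = e + 1 by omega] at h8
  rw [pow_one] at h7
  rw [show e + 3 - 1 = e + 2 by omega]
  omega

end

/-- The sequences above a Gorenstein sequence, over every field. -/
theorem minimalAll (K : Type u) [Field K] (d r : ℕ) (hd : 2 ≤ d) (hr : 2 ≤ r) (g : ℕ → ℕ) :
    (∃ h, IsGorSeq K d h ∧ h 1 = r ∧ ∀ i, h i ≤ g i) ↔
      ∃ t s, IsOSeq t ∧ extSeq d t s 1 = r ∧ ∀ i, extSeq d t s i ≤ g i := by
  constructor
  · rintro ⟨h, hG, rfl, hg⟩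
    obtain ⟨A, _, _, _, V, φ, hP, hh⟩ := hG.data_closure
    have e1 := hh 1 (by omega)
    rw [pow_one] at e1
    obtain ⟨t, ht, h1, h2⟩ := dominate hP hd (e1 ▸ hr)
    rw [e1] at h1 h2
    obtain ⟨b0, bs, bz⟩ := hG.basic
    refine ⟨t, h 1 - (psum t 1 + psum t (d - 1)), ht, ?_, fun i => ?_⟩
    · rw [extSeq_mid _ _ one_pos (by omega)]; omega
    refine le_trans ?_ (hg i)
    have main : ∀ k, 1 ≤ k → 2 * k ≤ d →
        psum t k + psum t (d - k) + (h 1 - (psum t 1 + psum t (d - 1))) ≤ h k := by
      intro k hk1 hk2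
      rcases hk1.eq_or_lt with hk | hk
      · rw [← hk]; omega
      · have := h2 k hk hk2
        rw [hh k (by omega)] at this
        omega
    by_cases hi : i = 0 ∨ i = d
    · rw [extSeq, if_pos hi]
      exact hG.pos (by omega)
    by_cases hi' : i < d
    · rw [extSeq_mid _ _ (by omega) hi']
      rcases le_total (2 * i) d with h3 | h3
      · exact main i (by omega) h3
      · have := main (d - i) (by omega) (by omega)
        rw [show d - (d - i) = i by omega, bs (d - i) i (by omega)] at this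
        omega
    · rw [extSeq, if_neg hi, if_neg hi']
      exact Nat.zero_le _
  · rintro ⟨t, s, ht, h1, h2⟩
    exact ⟨_, isGorSeq_extSeq K (by omega) ht s, h1, h2⟩

end Pool.Agent.MP_708e57_al.AllMin
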